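import Pool.Agent.V11324.KW.Count

/-!
Critical bond percolation in the half-plane `ℤ × ℕ`, with open edges on the negative half-axis and
closed edges on the positive half-axis: `k` independent copies of the exploration path started at the
origin. The number of the points of `[2 ^ n, 2 ^ (n + 1))` on the boundary which all `k` paths visit
has almost surely the upper growth exponent `1 - k / 3` if `k ≤ 2`: for every `ε > 0` it is at most
`2 ^ ((1 - k / 3 + ε) n)` for all large `n` (this for every `k`), and larger than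
`2 ^ ((1 - k / 3 - ε) n)` for infinitely many `n`.
-/

namespace Pool.Agent.Results.MP_6c8efb_pr.CommonCount

open MeasureTheory Filter

/-- Edges of `ℤ × ℕ`: `(x, y, true)` joins `(x, y)` and `(x + 1, y)`; `(x, y, false)` joins
`(x, y)` and `(x, y + 1)`. -/
abbrev Edge := ℤ × ℕ × Bool

/-- Configurations. -/
abbrev Conf := Edge → Bool

/-- Independent fair coins on the edges (`p = 1 / 2`). -/
noncomputable def perc : Measure Conf :=
  Measure.infinitePi (fun _ : Edge => (PMF.uniformOfFintype Bool).toMeasure)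

/-- The edges `[x, x + 1]` of the real axis are open for `x < 0` and closed for `x ≥ 0`; the other
edges follow the coins. -/
def IsOpen (ω : Conf) (e : Edge) : Prop :=
  if e.2.1 = 0 ∧ e.2.2 = true then e.1 < 0 else ω e = true

/-- `u` and `v` are the left (lower) and right (upper) end of an open edge. -/
def Joined (ω : Conf) (u v : ℤ × ℕ) : Prop :=
  (v = (u.1 + 1, u.2) ∧ IsOpen ω (u.1, u.2, true)) ∨
    (v = (u.1, u.2 + 1) ∧ IsOpen ω (u.1, u.2, false))

/-- `C_-`: the negative half-axis and all open clusters attached to it, i.e. the set of all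
vertices which are connected to the origin by open edges. -/
def Cminus (ω : Conf) : Set (ℤ × ℕ) := {v | Relation.EqvGen (Joined ω) (0, 0) v}

/-- The law of `k` independent configurations. -/
noncomputable def copies (k : ℕ) : Measure (Fin k → Conf) := Measure.pi (fun _ => perc)

/-- The number of the points `x` of `[2 ^ n, 2 ^ (n + 1))` which all `k` exploration paths visit: the
boundary point `(x, 0)` belongs to `C_-` in all `k` configurations. -/
noncomputable def number {k : ℕ} (ω : Fin k → Conf) (n : ℕ) : ℕ :=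
  Set.ncard {x : ℤ | ((2 : ℤ) ^ n ≤ x ∧ x < 2 ^ (n + 1)) ∧ ∀ i, ((x, 0) : ℤ × ℕ) ∈ Cminus (ω i)}

theorem number_eq {k : ℕ} (ω : Fin k → Conf) (n : ℕ) :
    number ω n = V11324.KW.R.num ({x | 1 ≤ x} ∩ V11324.KW.R.W ω) n := by
  classical
  unfold number V11324.KW.R.num
  rw [← Set.ncard_coe_finset]
  congr 1
  ext x
  have h1n : (1 : ℤ) ≤ 2 ^ n := one_le_pow₀ (by norm_num)
  simp only [Finset.coe_filter, Finset.mem_Ico, Set.mem_setOf_eq]
  constructor
  · rintro ⟨h1, h2⟩
    exact ⟨h1, h1n.trans h1.1, h2⟩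
  · rintro ⟨h1, _, h2⟩
    exact ⟨h1, h2⟩

/-- The growth exponent of the number of common boundary points of `k` independent exploration
paths. -/
theorem result (k : ℕ) :
    (∀ᵐ ω ∂(copies k), ∀ ε : ℝ, 0 < ε → ∀ᶠ n : ℕ in atTop,
      (number ω n : ℝ) ≤ (2 : ℝ) ^ ((1 - (k : ℝ) / 3 + ε) * n)) ∧
    (k ≤ 2 → ∀ᵐ ω ∂(copies k), ∀ ε : ℝ, 0 < ε → ∃ᶠ n : ℕ in atTop,
      (2 : ℝ) ^ ((1 - (k : ℝ) / 3 - ε) * n) < (number ω n : ℝ)) := by
  simp only [number_eq]
  exact ⟨V11324.KW.R.num_upper k, fun hk => V11324.KW.R.num_lower hk⟩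

end Pool.Agent.Results.MP_6c8efb_pr.CommonCount
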