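import Pool.Agent.V11324.KW.DimMain

/-!
Critical bond percolation in the half-plane `ℤ × ℕ`, with open edges on the negative half-axis and
closed edges on the positive half-axis: `k` independent copies of the exploration path started at the
origin. The discrete (macroscopic) dimension of a set `S` of positive integers is the infimum of all
`a > 0` for which the capacities of the dyadic pieces of `S`, for the kernel
`(max(x, y) / (|x - y| + 1)) ^ a`, have a finite sum. For every fixed `S` the dimension of the set of
the points of `S` which all `k` paths visit is almost surely exactly `dim S - k / 3` (and `0` if this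
is negative); for the set of all positive integers it is `1 - k / 3` for `k ≤ 3`.
-/

namespace Pool.Agent.Results.MP_6c8efb_pr.CommonDimension

open MeasureTheory Finset

/-- Edges of `ℤ × ℕ`: `(x, y, true)` joins `(x, y)` and `(x + 1, y)`; `(x, y, false)` joins
`(x, y)` and `(x, y + 1)`. -/
abbrev Edge := ℤ × ℕ × Bool

/-- Configurations. -/
abbrev Conf := Edge → Bool

/-- Independent fair coins on the edges (`p = 1 / 2`). -/
noncomputable def perc : Measure Conf :=
  Measure.infinitePi (fun _ : Edge => (PMF.uniformOfFintype Bool).toMeasure)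

/-- The edges `[x, x + 1]` of the real axis are open for `x < 0` and closed for `x ≥ 0`; the other
edges follow the coins. -/
def IsOpen (ω : Conf) (e : Edge) : Prop :=
  if e.2.1 = 0 ∧ e.2.2 = true then e.1 < 0 else ω e = true

/-- `u` and `v` are the left (lower) and right (upper) end of an open edge. -/
def Joined (ω : Conf) (u v : ℤ × ℕ) : Prop :=
  (v = (u.1 + 1, u.2) ∧ IsOpen ω (u.1, u.2, true)) ∨
    (v = (u.1, u.2 + 1) ∧ IsOpen ω (u.1, u.2, false))

/-- `C_-`: the negative half-axis and all open clusters attached to it, i.e. the set of all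
vertices which are connected to the origin by open edges. -/
def Cminus (ω : Conf) : Set (ℤ × ℕ) := {v | Relation.EqvGen (Joined ω) (0, 0) v}

/-- The points `x` of `S` which all `k` exploration paths visit: the boundary point `(x, 0)` belongs
to `C_-` in all `k` configurations. -/
def common {k : ℕ} (ω : Fin k → Conf) (S : Set ℤ) : Set ℤ :=
  {x | x ∈ S ∧ ∀ i, ((x, 0) : ℤ × ℕ) ∈ Cminus (ω i)}

/-- The law of `k` independent configurations. -/
noncomputable def copies (k : ℕ) : Measure (Fin k → Conf) := Measure.pi (fun _ => perc)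

/-- The kernel `(max(x, y) / (|x - y| + 1)) ^ a`. -/
noncomputable def kernel (a : ℝ) (x y : ℤ) : ℝ :=
  (((max x y : ℤ) : ℝ) / (((|x - y| : ℤ) : ℝ) + 1)) ^ a

/-- The energy of a weight `m` on a finite set `T`. -/
noncomputable def energy (a : ℝ) (T : Finset ℤ) (m : ℤ → ℝ) : ℝ :=
  ∑ x ∈ T, ∑ y ∈ T, m x * m y * kernel a x y

/-- The capacity of `S`: the supremum of `1 / energy` over all probability weights on finite subsets
of `S`. -/
noncomputable def capacity (a : ℝ) (S : Set ℤ) : ℝ :=
  sSup {r | ∃ (T : Finset ℤ) (m : ℤ → ℝ), (∀ x ∈ T, x ∈ S ∧ 0 ≤ m x) ∧ ∑ x ∈ T, m x = 1 ∧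
    r = 1 / energy a T m}

/-- The part of `S` in `[2 ^ n, 2 ^ (n + 1))`. -/
def piece (S : Set ℤ) (n : ℕ) : Set ℤ := {x | x ∈ S ∧ (2 : ℤ) ^ n ≤ x ∧ x < 2 ^ (n + 1)}

/-- The discrete dimension of `S`: the infimum of all `a > 0` for which the sum of the capacities of
the dyadic pieces is finite. -/
noncomputable def dim (S : Set ℤ) : ℝ :=
  sInf {a : ℝ | 0 < a ∧ Summable (fun n : ℕ => capacity a (piece S n))}

/-- The dimension of the common boundary points of `k` independent exploration paths. -/
theorem result (k : ℕ) :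
    (∀ S : Set ℤ, (∀ x ∈ S, 1 ≤ x) →
      ∀ᵐ ω ∂(copies k), dim (common ω S) = max (dim S - (k : ℝ) / 3) 0) ∧
    dim {x | 1 ≤ x} = 1 ∧
    ∀ᵐ ω ∂(copies k), dim (common ω {x | 1 ≤ x}) = max (1 - (k : ℝ) / 3) 0 := by
  refine ⟨fun S hS => V11324.KW.R.dim_common k S hS, V11324.KW.R.dim_all, ?_⟩
  have h := V11324.KW.R.dim_common k {x | 1 ≤ x} (fun x hx => hx)
  rw [V11324.KW.R.dim_all] at h
  exact h

end Pool.Agent.Results.MP_6c8efb_pr.CommonDimension
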