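import Pool.Agent.V11324.KW.HitDy

/-!
Critical bond percolation in the half-plane `ℤ × ℕ`, with open edges on the negative half-axis and
closed edges on the positive half-axis: `k` independent copies of the exploration path started at the
origin. For every set `S` of points of the positive half-axis the probability that some point of `S`
is visited by all `k` paths is, up to constant factors which depend only on `k`, the capacity of `S`
for the kernel `(max(x, y) / (|x - y| + 1)) ^ (k / 3)`. For the dyadic interval `[2 ^ n, 2 ^ (n + 1))`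
this probability is of order `1` for `k ≤ 2`, of order `1 / n` for `k = 3`, and of order
`2 ^ (-(k / 3 - 1) n)` for `k ≥ 4`, where also the probability of a common point at distance at least
`2 ^ n` has this order.
-/

namespace Pool.Agent.Results.MP_6c8efb_pr.CommonHits

open MeasureTheory Finset

/-- Edges of `ℤ × ℕ`: `(x, y, true)` joins `(x, y)` and `(x + 1, y)`; `(x, y, false)` joins
`(x, y)` and `(x, y + 1)`. -/
abbrev Edge := ℤ × ℕ × Bool

/-- Configurations. -/
abbrev Conf := Edge → Bool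

/-- Independent fair coins on the edges (`p = 1 / 2`). -/
noncomputable def perc : Measure Conf :=
  Measure.infinitePi (fun _ : Edge => (PMF.uniformOfFintype Bool).toMeasure)

/-- The edges `[x, x + 1]` of the real axis are open for `x < 0` and closed for `x ≥ 0`; the other
edges follow the coins. -/
def IsOpen (ω : Conf) (e : Edge) : Prop :=
  if e.2.1 = 0 ∧ e.2.2 = true then e.1 < 0 else ω e = true

/-- `u` and `v` are the left (lower) and right (upper) end of an open edge. -/
def Joined (ω : Conf) (u v : ℤ × ℕ) : Prop :=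
  (v = (u.1 + 1, u.2) ∧ IsOpen ω (u.1, u.2, true)) ∨
    (v = (u.1, u.2 + 1) ∧ IsOpen ω (u.1, u.2, false))

/-- `C_-`: the negative half-axis and all open clusters attached to it, i.e. the set of all
vertices which are connected to the origin by open edges. -/
def Cminus (ω : Conf) : Set (ℤ × ℕ) := {v | Relation.EqvGen (Joined ω) (0, 0) v}

/-- All `k` exploration paths visit a common point of `S`: for some `x` in `S` the boundary point
`(x, 0)` belongs to `C_-` in all `k` configurations. -/
def Meet (k : ℕ) (S : Set ℤ) : Set (Fin k → Conf) :=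
  {ω | ∃ x ∈ S, ∀ i, ((x, 0) : ℤ × ℕ) ∈ Cminus (ω i)}

/-- The law of `k` independent configurations. -/
noncomputable def copies (k : ℕ) : Measure (Fin k → Conf) := Measure.pi (fun _ => perc)

/-- The kernel `(max(x, y) / (|x - y| + 1)) ^ (k / 3)`. -/
noncomputable def kernel (k : ℕ) (x y : ℤ) : ℝ :=
  (((max x y : ℤ) : ℝ) / (((|x - y| : ℤ) : ℝ) + 1)) ^ ((k : ℝ) / 3)

/-- The energy of a weight `m` on a finite set `T`. -/
noncomputable def energy (k : ℕ) (T : Finset ℤ) (m : ℤ → ℝ) : ℝ :=
  ∑ x ∈ T, ∑ y ∈ T, m x * m y * kernel k x y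

/-- The capacity of `S`: the supremum of `1 / energy` over all probability weights on finite subsets
of `S`. -/
noncomputable def capacity (k : ℕ) (S : Set ℤ) : ℝ :=
  sSup {r | ∃ (T : Finset ℤ) (m : ℤ → ℝ), (∀ x ∈ T, x ∈ S ∧ 0 ≤ m x) ∧ ∑ x ∈ T, m x = 1 ∧
    r = 1 / energy k T m}

/-- The interval `[2 ^ n, 2 ^ (n + 1))`. -/
def dyadic (n : ℕ) : Set ℤ := {x | (2 : ℤ) ^ n ≤ x ∧ x < 2 ^ (n + 1)}

/-- The points at distance at least `2 ^ n`. -/
def far (n : ℕ) : Set ℤ := {x | (2 : ℤ) ^ n ≤ x}

/-- The probability that `k` independent exploration paths visit a common point of a set. -/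
theorem result (k : ℕ) (hk : 1 ≤ k) :
    (∃ c C : ℝ, 0 < c ∧ 0 < C ∧ ∀ S : Set ℤ, (∀ x ∈ S, 1 ≤ x) →
      c * capacity k S ≤ (copies k).real (Meet k S) ∧
      (copies k).real (Meet k S) ≤ C * capacity k S) ∧
    (k ≤ 2 → ∃ c : ℝ, 0 < c ∧ ∀ n : ℕ, c ≤ (copies k).real (Meet k (dyadic n))) ∧
    (k = 3 → ∃ c C : ℝ, 0 < c ∧ 0 < C ∧ ∀ n : ℕ,
      c / ((n : ℝ) + 1) ≤ (copies k).real (Meet k (dyadic n)) ∧
      (copies k).real (Meet k (dyadic n)) ≤ C / ((n : ℝ) + 1)) ∧
    (4 ≤ k → ∃ c C : ℝ, 0 < c ∧ 0 < C ∧ ∀ n : ℕ,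
      c * (2 : ℝ) ^ (-(((k : ℝ) / 3 - 1) * n)) ≤ (copies k).real (Meet k (dyadic n)) ∧
      (copies k).real (Meet k (far n)) ≤ C * (2 : ℝ) ^ (-(((k : ℝ) / 3 - 1) * n))) :=
  ⟨V11324.KW.hits hk, V11324.KW.dyadic k⟩

end Pool.Agent.Results.MP_6c8efb_pr.CommonHits
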