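import Pool.Agent.V11324.KW.All

/-!
Critical bond percolation in the half-plane `ℤ × ℕ`, with open edges on the negative half-axis and
closed edges on the positive half-axis: `k` independent copies of the exploration path started at the
origin. A set `S` of points of the positive half-axis contains infinitely many points visited by all
`k` paths with probability `1` or `0`, according to whether the sum of the capacities of the dyadic
pieces of `S` for the `k`-th power of the kernel `(max(x, y) / (|x - y| + 1)) ^ (1 / 3)` is infinite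
or finite. In particular up to three independent paths have infinitely many common boundary points,
four or more have only finitely many.
-/

namespace Pool.Agent.Results.MP_6c8efb_pr.CommonPoints

open MeasureTheory Finset

/-- Edges of `ℤ × ℕ`: `(x, y, true)` joins `(x, y)` and `(x + 1, y)`; `(x, y, false)` joins
`(x, y)` and `(x, y + 1)`. -/
abbrev Edge := ℤ × ℕ × Bool

/-- Configurations. -/
abbrev Conf := Edge → Bool

/-- Independent fair coins on the edges (`p = 1 / 2`). -/
noncomputable def perc : Measure Conf :=
  Measure.infinitePi (fun _ : Edge => (PMF.uniformOfFintype Bool).toMeasure)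

/-- The edges `[x, x + 1]` of the real axis are open for `x < 0` and closed for `x ≥ 0`; the other
edges follow the coins. -/
def IsOpen (ω : Conf) (e : Edge) : Prop :=
  if e.2.1 = 0 ∧ e.2.2 = true then e.1 < 0 else ω e = true

/-- `u` and `v` are the left (lower) and right (upper) end of an open edge. -/
def Joined (ω : Conf) (u v : ℤ × ℕ) : Prop :=
  (v = (u.1 + 1, u.2) ∧ IsOpen ω (u.1, u.2, true)) ∨
    (v = (u.1, u.2 + 1) ∧ IsOpen ω (u.1, u.2, false))

/-- `C_-`: the negative half-axis and all open clusters attached to it, i.e. the set of all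
vertices which are connected to the origin by open edges. -/
def Cminus (ω : Conf) : Set (ℤ × ℕ) := {v | Relation.EqvGen (Joined ω) (0, 0) v}

/-- The points `x` of `S` which all `k` exploration paths visit: the boundary point `(x, 0)` belongs
to `C_-` in all `k` configurations. -/
def common {k : ℕ} (ω : Fin k → Conf) (S : Set ℤ) : Set ℤ :=
  {x | x ∈ S ∧ ∀ i, ((x, 0) : ℤ × ℕ) ∈ Cminus (ω i)}

/-- The law of `k` independent configurations. -/
noncomputable def copies (k : ℕ) : Measure (Fin k → Conf) := Measure.pi (fun _ => perc)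

/-- The kernel `(max(x, y) / (|x - y| + 1)) ^ (k / 3)`. -/
noncomputable def kernel (k : ℕ) (x y : ℤ) : ℝ :=
  (((max x y : ℤ) : ℝ) / (((|x - y| : ℤ) : ℝ) + 1)) ^ ((k : ℝ) / 3)

/-- The energy of a weight `m` on a finite set `T`. -/
noncomputable def energy (k : ℕ) (T : Finset ℤ) (m : ℤ → ℝ) : ℝ :=
  ∑ x ∈ T, ∑ y ∈ T, m x * m y * kernel k x y

/-- The capacity of `S`: the supremum of `1 / energy` over all probability weights on finite subsets
of `S`. -/
noncomputable def capacity (k : ℕ) (S : Set ℤ) : ℝ :=
  sSup {r | ∃ (T : Finset ℤ) (m : ℤ → ℝ), (∀ x ∈ T, x ∈ S ∧ 0 ≤ m x) ∧ ∑ x ∈ T, m x = 1 ∧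
    r = 1 / energy k T m}

/-- The part of `S` in `[2 ^ n, 2 ^ (n + 1))`. -/
def piece (S : Set ℤ) (n : ℕ) : Set ℤ := {x | x ∈ S ∧ (2 : ℤ) ^ n ≤ x ∧ x < 2 ^ (n + 1)}

/-- Wiener's test for the common boundary points of `k` independent exploration paths, and the case
of all boundary points. -/
theorem result (k : ℕ) (hk : 1 ≤ k) :
    (∀ S : Set ℤ, (∀ x ∈ S, 1 ≤ x) →
      (Summable (fun n : ℕ => capacity k (piece S n)) → ∀ᵐ ω ∂(copies k), (common ω S).Finite) ∧
      (¬ Summable (fun n : ℕ => capacity k (piece S n)) →
        ∀ᵐ ω ∂(copies k), (common ω S).Infinite)) ∧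
    (k ≤ 3 → ∀ᵐ ω ∂(copies k), (common ω {x | 1 ≤ x}).Infinite) ∧
    (4 ≤ k → ∀ᵐ ω ∂(copies k), (common ω {x | 1 ≤ x}).Finite) :=
  ⟨fun S hS => V11324.KW.wiener hk S hS, (V11324.KW.all_points k).1, (V11324.KW.all_points k).2⟩

end Pool.Agent.Results.MP_6c8efb_pr.CommonPoints
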